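import Mathlib
import Pool.Agent.TH167.SM.Pos3

set_option autoImplicit false

/-!
# Systems with an irreducible member: nonspeciality and smoothness

Let `L = |d H - ∑ w i E i|` be a linear system on the blow-up of the complex projective plane at any
number `s` of very general points `P i` (algebraically independent coordinates), with an irreducible
member. If the sum of the multiplicities `w i > 2` is less than `3 d`, then `L` is nonspecial and
its general member is smooth on the blow-up.
-/

namespace Pool.Agent.Results.MP_0421d9_ag.IrreducibleMembers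

open MvPolynomial Pool.Agent.H248R5

/-- The chart `(x, y) ↦ p + x (v + y v')` of the blow-up of the plane at the point `p`, with origin
the point of the exceptional curve `x = 0` given by the direction `v`; here `v, v'` is a basis of
the plane. This is the pullback of a form in three variables to the chart. -/
noncomputable def chart (p v v' : Fin 2 → ℂ) :
    MvPolynomial (Fin 3) ℂ →ₐ[ℂ] MvPolynomial (Fin 2) ℂ :=
  aeval ![C (p 0) + X 0 * (C (v 0) + C (v' 0) * X 1), C (p 1) + X 0 * (C (v 1) + C (v' 1) * X 1), 1]

/-- The member `f = 0` of the linear system `|d H - ∑ w i E i|` is a smooth curve on the blow-up of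
the plane at the points `P i`: it is smooth at all points of the plane different from the `P i`
(at `Q` either `f` or a partial derivative of `f` does not vanish), and for every `i` and every
direction `v`, in the chart of the blow-up at `P i` centred at `v` the form `f` is `x ^ w i` times a
local equation `H` such that `H` or a partial derivative of `H` does not vanish at the origin. -/
def SmoothOnBlowup {s : ℕ} (P : Fin s → Fin 2 → ℂ) (w : Fin s → ℕ)
    (f : MvPolynomial (Fin 3) ℂ) : Prop :=
  (∀ Q : Fin 3 → ℂ, Q ≠ 0 → (∀ i, ∀ c : ℂ, Q ≠ c • (![P i 0, P i 1, 1] : Fin 3 → ℂ)) →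
    eval Q f ≠ 0 ∨ ∃ a, eval Q (pderiv a f) ≠ 0) ∧
  ∀ i (v v' : Fin 2 → ℂ), v 0 * v' 1 - v 1 * v' 0 ≠ 0 →
    ∃ H : MvPolynomial (Fin 2) ℂ, chart (P i) v v' f = X 0 ^ w i * H ∧
      (eval 0 H ≠ 0 ∨ ∃ a, eval 0 (pderiv a H) ≠ 0)

theorem result (s d : ℕ) (w : Fin s → ℕ) (P : Fin s → Fin 2 → ℂ)
    (hP : AlgebraicIndependent ℚ (fun ij : Fin s × Fin 2 => P ij.1 ij.2))
    (hf : ∃ f ∈ forms w P d, Irreducible f)
    (hw : ∑ i ∈ Finset.univ.filter (fun i => 2 < w i), w i < 3 * d) :
    Module.finrank ℂ ↥(forms w P d) + ∑ i, (w i + 1).choose 2 = (d + 2).choose 2 ∧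
      GeneralMember (forms w P d) (SmoothOnBlowup P w) := by
  classical
  obtain ⟨f, hf, hirr⟩ := hf
  rw [← Pool.Agent.W609.CR.vs_eq_forms] at hf ⊢
  obtain ⟨h1, h2⟩ := Pool.Agent.TH167.SM.general_smoothP hP hw hf hirr
  rw [Pool.Agent.TH167.SH.chi_cast] at h1
  exact ⟨by omega, h2⟩

end Pool.Agent.Results.MP_0421d9_ag.IrreducibleMembers
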