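import Mathlib
import Pool.Agent.Q78.SP.Final

set_option autoImplicit false

/-!
# The singular points of the general member: superabundance and singularities together

Let `L = |d H - ∑ w i E i|` be a linear system on the blow-up of the complex projective plane at
any number `s` of very general points `P i` (the `2 s` affine coordinates are algebraically
independent). Let `S` be a set of points such that either `S` has at most nine elements and `L` has
a member given by a squarefree form, or `∑_S w i < 3 d` and `L` has an irreducible member. Then the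
general member `g` of `L` satisfies: for all different points `Q a` of the plane, different from the
`P i`, at which `g` has multiplicity at least `m a`,

  `dim L - vdim L + ∑ (m a).choose 2 ≤ ∑ (w i - 2)⁺`,

the sum on the right over the points `P i` outside `S`. So the superabundance of `L` and the
singularities of its general member off the `P i` are bounded together; the general member has at
most `∑ (w i - 2)⁺` singular points off the `P i`.
-/

namespace Pool.Agent.Results.MP_0421d9_ag.SingularPointsBound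

open MvPolynomial Pool.Agent.H248R5

theorem result (s d : ℕ) (w : Fin s → ℕ) (P : Fin s → Fin 2 → ℂ)
    (hP : AlgebraicIndependent ℚ (fun ij : Fin s × Fin 2 => P ij.1 ij.2)) (S : Finset (Fin s))
    (hS : (S.card ≤ 9 ∧ ∃ f ∈ forms w P d, Squarefree f) ∨
      (∑ i ∈ S, w i < 3 * d ∧ ∃ f ∈ forms w P d, Irreducible f)) :
    GeneralMember (forms w P d) (fun g =>
      ∀ (k : ℕ) (Q : Fin k → Fin 3 → ℂ) (m : Fin k → ℕ),
        (∀ a, Q a ≠ 0) → (∀ a b, a ≠ b → ∀ c : ℂ, Q a ≠ c • Q b) →
        (∀ a i, ∀ c : ℂ, Q a ≠ c • (![P i 0, P i 1, 1] : Fin 3 → ℂ)) →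
        (∀ a, g ∈ RingHom.ker (eval (Q a)) ^ m a) →
        Module.finrank ℂ ↥(forms w P d) + ∑ i, (w i + 1).choose 2 + ∑ a, (m a).choose 2 ≤
          (d + 2).choose 2 + ∑ i, (if i ∈ S then 0 else w i - 2)) := by
  classical
  rw [← Pool.Agent.W609.CR.vs_eq_forms] at hS ⊢
  obtain ⟨f, hf, hh⟩ : ∃ f ∈ Pool.Agent.W609.CR.VS (fun j => Pool.Agent.W609.CR.aff (P j)) w d,
      (Squarefree f ∧ S.card ≤ 9) ∨ (Irreducible f ∧ ∑ i ∈ S, w i < 3 * d) := by
    rcases hS with ⟨h, f, hf, hf'⟩ | ⟨h, f, hf, hf'⟩
    · exact ⟨f, hf, Or.inl ⟨hf', h⟩⟩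
    · exact ⟨f, hf, Or.inr ⟨hf', h⟩⟩
  intro N b
  obtain ⟨Φ, h1, h2⟩ := Pool.Agent.Q78.SP.general_bound hP hf hh N b
  exact ⟨Φ, h1, fun t ht k Q m hQ1 hQ2 hQ3 hQ4 => h2 t ht k Q m ⟨hQ1, hQ2, hQ3⟩ hQ4⟩

end Pool.Agent.Results.MP_0421d9_ag.SingularPointsBound
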