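import Mathlib
import Pool.Agent.Q78.SG.Std

set_option autoImplicit false

/-!
# Smooth general members in the whole range `d > m₁ + m₂ + m₃`

Let `v 1, …, v s` be multiplicities at `s ≥ 4` general points of the complex projective plane, and
let `d` be a degree which is larger than the sum of any three of them and such that the expected
dimension `(d + 2).choose 2 - 1 - ∑ (v i + 1).choose 2` is at least every `v k`. For all
multiplicities `u i ≤ v i` the system `|d H - ∑ u i E i|` is nonspecial and its general member is a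
smooth curve on the blow-up, in each of the following cases:

* at most eight of the multiplicities `v i` are larger than `2`;
* for some `m`, at most five of the `v i` are larger than `m`, or the sum of those larger than `m`
  is at most `2 d - (4 (m + 1) ^ 2 + 8 (m + 1) + 7)`; and, with
  `B = 2 ^ 17 (4 (m + 1) ^ 2 + 8 (m + 1) + 5) ^ 4`, `d > B` or at least `B + 3` of the `v i` are at
  least `2`.

The number of the points is arbitrary. The points are all those of one nonempty open set, the same
for all `d` and `u`.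
-/

namespace Pool.Agent.Results.MP_0421d9_ag.StandardRangeSmooth

open MvPolynomial Pool.Agent.H248R5

theorem result (s : ℕ) (hs : 4 ≤ s) (v : Fin s → ℕ) :
    ∃ F : MvPolynomial (Fin s × Fin 2) ℂ, F ≠ 0 ∧
      ∀ P : Fin s → Fin 2 → ℂ, eval (fun ij : Fin s × Fin 2 => P ij.1 ij.2) F ≠ 0 →
        ∀ d : ℕ, (∀ i j k : Fin s, i ≠ j → i ≠ k → j ≠ k → v i + v j + v k < d) →
          (∀ k, ∑ i, (v i + 1).choose 2 + v k < (d + 2).choose 2) →
          ((Finset.univ.filter fun i => 2 < v i).card ≤ 8 ∨
            ∃ m B : ℕ, B = 2 ^ 17 * (4 * (m + 1) ^ 2 + 8 * (m + 1) + 5) ^ 4 ∧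
              ((Finset.univ.filter fun i => m < v i).card ≤ 5 ∨
                (∑ i, if m < v i then v i else 0) + (4 * (m + 1) ^ 2 + 8 * (m + 1) + 7) ≤
                  2 * d) ∧
              (B < d ∨ B + 3 ≤ (Finset.univ.filter fun i => 2 ≤ v i).card)) →
          ∀ u : Fin s → ℕ, (∀ i, u i ≤ v i) →
            Module.finrank ℂ ↥(forms u P d) + ∑ i, (u i + 1).choose 2 = (d + 2).choose 2 ∧
              GeneralMember (forms u P d) (SmoothMember u P) := by
  obtain ⟨r, rfl⟩ : ∃ r, s = r + 4 := ⟨s - 4, by omega⟩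
  obtain ⟨F, hF, h⟩ := Pool.Agent.Q78.SG.good_smooth (K := ℂ) v
  refine ⟨F.map (algebraMap ℚ ℂ), Pool.Agent.TH167.SH.map_ne hF, fun P hP d h1 h2 h3 u hu => ?_⟩
  rw [Pool.Agent.TH167.SH.evP_eval] at hP
  refine h P hP u hu d ⟨h1, h2, ?_⟩
  rcases h3 with h3 | ⟨m, B, hB, h3, h4⟩
  · exact Or.inl h3
  · exact Or.inr ⟨m, B, by rw [hB]; norm_num, h3, h4⟩

end Pool.Agent.Results.MP_0421d9_ag.StandardRangeSmooth
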