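import Mathlib
import Pool.Agent.Q78.SG.Smo

set_option autoImplicit false

/-!
# Smooth general members of the systems of the subdivision closure

`System d v` (`Pool.Agent.Q78.SG.Sub.System`; degree `d`, multiset `v` of multiplicities) is the
smallest relation which contains

* the standard systems at `≥ 4` points with at most nine multiplicities larger than `2`;
* the standard systems at `≥ 4` points such that, for some `m ≥ 1` and
  `B = 2 ^ 17 (4 m ^ 2 + 8 m + 5) ^ 4`, at most five multiplicities are larger than `m` or those
  larger than `m` have a sum `≤ 2 d - (4 m ^ 2 + 8 m + 5)`, and `d ≥ B` or at least `B + 3`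
  multiplicities are not zero;
* the systems of degree `3 D` with `k` multiplicities `D` and `r` blocks of `M + 4` multiplicities,
  in each block one or two consecutive numbers, `k + r M = 9`, if all blocks have
  `≤ M (D + 1).choose 2` conditions, or all have more;

and is closed under the subdivision of one multiplicity `b` into the integral parts of
`(2 b - 1) / 4, 2 b / 4, (2 b + 1) / 4, (2 b + 2) / 4`, under that of `N` multiplicities into
`b / 2, b / 2, (b + 1) / 2, (b + 1) / 2` each if the systems with `N` multiplicities `b` and with
`N` multiplicities `b + 1` are in it, and under the passage to a larger (smaller) degree if the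
number of conditions is at most (at least) the number of forms.

Let `v` be any vector of multiplicities at general points of the complex projective plane (the same
open set of points for all degrees and all `u`), and `e` a degree such that

* `System d v` for some `d ≤ e` with `∑ (v i + 1).choose 2 ≤ (d + 2).choose 2`, or
* `System e (v - 1)` and, for all `k`, `System (e + 1) (v + 1_k)` and
  `∑ (v i + 1).choose 2 + v k + 1 ≤ (e + 3).choose 2`.

Then for all `u ≤ v` the system `|(e + 1) H - ∑ u i E i|` is nonspecial, not empty, and its general
member is a smooth curve on the blow-up.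
-/

namespace Pool.Agent.Results.MP_0421d9_ag.SubdivisionSmooth

open MvPolynomial Pool.Agent.H248R5 Pool.Agent.Q78.SG.Sub

theorem result (n : ℕ) (hn : 0 < n) (v : Fin n → ℕ) :
    ∃ F : MvPolynomial (Fin n × Fin 2) ℂ, F ≠ 0 ∧
      ∀ P : Fin n → Fin 2 → ℂ, eval (fun ij : Fin n × Fin 2 => P ij.1 ij.2) F ≠ 0 →
        ∀ e : ℕ,
          ((∃ d ≤ e, System d (mults v) ∧ ∑ i, (v i + 1).choose 2 ≤ (d + 2).choose 2) ∨
            (System e (mults fun i => v i - 1) ∧
              ∀ k, System (e + 1) (mults (Function.update v k (v k + 1))) ∧
                ∑ i, (v i + 1).choose 2 + v k + 1 ≤ (e + 3).choose 2)) →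
          ∀ u : Fin n → ℕ, (∀ i, u i ≤ v i) →
            Module.finrank ℂ ↥(forms u P (e + 1)) + ∑ i, (u i + 1).choose 2 =
                (e + 3).choose 2 ∧
              GeneralMember (forms u P (e + 1)) (SmoothMember u P) := by
  obtain ⟨F1, h1, h1'⟩ := Pool.Agent.Q78.SG.Smo.above (K := ℂ) v
  obtain ⟨F2, h2, h2'⟩ := Pool.Agent.Q78.SG.Smo.same (K := ℂ) hn v
  refine ⟨F1.map (algebraMap ℚ ℂ) * F2.map (algebraMap ℚ ℂ),
    mul_ne_zero (Pool.Agent.TH167.SH.map_ne h1) (Pool.Agent.TH167.SH.map_ne h2),
    fun P hP e he u hu => ?_⟩
  rw [map_mul, Pool.Agent.TH167.SH.evP_eval, Pool.Agent.TH167.SH.evP_eval] at hP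
  rcases he with he | he
  · exact h1' P (left_ne_zero_of_mul hP) e he u hu
  · exact h2' P (right_ne_zero_of_mul hP) e he u hu

end Pool.Agent.Results.MP_0421d9_ag.SubdivisionSmooth
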